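import Pool.Agent.helper97.IRO.Spec

set_option autoImplicit false

open MeasureTheory Pool.Agent.LOF

namespace Pool.Agent.IRO

theorem G3_dense (x y : ℝ) (h : x < y) : ∃ d, IsDyadic d ∧ x < d ∧ d < y := by
  obtain ⟨n, hn⟩ := exists_pow_lt_of_lt_one (sub_pos.mpr h) (by norm_num : (1 / 2 : ℝ) < 1)
  have hp : (0 : ℝ) < 2 ^ n := by positivity
  have hn' : 1 / 2 ^ n < y - x := by
    rw [one_div_pow] at hn
    exact hn
  refine ⟨((⌊x * 2 ^ n⌋ + 1 : ℤ) : ℝ) / 2 ^ n, ⟨_, n, rfl⟩, ?_, ?_⟩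
  · rw [lt_div_iff₀ hp]
    push_cast
    exact Int.lt_floor_add_one _
  · rw [div_lt_iff₀ hp]
    push_cast
    have h1 : (⌊x * 2 ^ n⌋ : ℝ) ≤ x * 2 ^ n := Int.floor_le _
    have h2 : 1 < (y - x) * 2 ^ n := by
      rw [div_lt_iff₀ hp] at hn'
      exact hn'
    nlinarith

/-- Trivial germs. -/
theorem G3 : G3_stmt := by
  intro a b g hab hg
  refine ⟨?_, ?_⟩
  · rintro ⟨e, he, hz⟩
    obtain ⟨d, hd, hd1, hd2⟩ := G3_dense (max a e) b (max_lt hab he)
    have had : a < d := lt_of_le_of_lt (le_max_left _ _) hd1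
    have hed : e < d := lt_of_le_of_lt (le_max_right _ _) hd1
    refine ⟨d, had, hd2, hd, ?_⟩
    intro x hx
    by_cases hxI : x ∈ Set.Ioo a b
    · have hdx : d ≤ x := by
        by_contra hcon
        exact hx ⟨hxI.1, not_le.mp hcon⟩
      rw [hz x (by linarith) hxI.2.le, zpow_zero]
      ring
    · exact hg x hxI
  · rintro ⟨e, he, hz⟩
    obtain ⟨d, hd, hd1, hd2⟩ := G3_dense a (min b e) (lt_min hab he)
    have hdb : d < b := lt_of_lt_of_le hd2 (min_le_left _ _)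
    have hde : d < e := lt_of_lt_of_le hd2 (min_le_right _ _)
    refine ⟨d, hd1, hdb, hd, ?_⟩
    intro x hx
    by_cases hxI : x ∈ Set.Ioo a b
    · have hdx : x ≤ d := by
        by_contra hcon
        exact hx ⟨not_le.mp hcon, hxI.2⟩
      rw [hz x hxI.1.le (by linarith), zpow_zero]
      ring
    · exact hg x hxI

end Pool.Agent.IRO
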