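import Pool.Agent.helper97.IRO.Spec

set_option autoImplicit false

open MeasureTheory Pool.Agent.LOF

namespace Pool.Agent.IRO

theorem G8_map {G H : Type} [Group G] [Group H] (K : Subgroup G) (hK : K.FG) (f : G →* H) :
    (K.map f).FG := by
  classical
  obtain ⟨S, hS⟩ := hK
  refine ⟨S.image f, ?_⟩
  rw [← hS, MonoidHom.map_closure, Finset.coe_image]

theorem G8_conj {a b : ℝ} (h : (FI a b).FG) (g : F) : (FI (g.1 a) (g.1 b)).FG := by
  have e : FI (g.1 a) (g.1 b) = (FI a b).map (MulAut.conj g).toMonoidHom := by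
    ext u
    rw [Subgroup.mem_map]
    constructor
    · intro hu
      refine ⟨g⁻¹ * u * g⁻¹⁻¹, ?_, ?_⟩
      · have h1 := FI_conj hu g⁻¹
        have h2 : (g⁻¹ : F).1 (g.1 a) = a := g.1.symm_apply_apply a
        have h3 : (g⁻¹ : F).1 (g.1 b) = b := g.1.symm_apply_apply b
        rwa [h2, h3] at h1
      · show g * (g⁻¹ * u * g⁻¹⁻¹) * g⁻¹ = u
        group
    · rintro ⟨v, hv, rfl⟩
      exact FI_conj hv g
  rw [e]
  exact G8_map _ h _

theorem G8_std (hEMB : EMB_stmt) (hGE7 : GE7_stmt) (m j : ℕ) (hj : j < 2 ^ m) :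
    (FI ((j : ℝ) / 2 ^ m) (((j : ℝ) + 1) / 2 ^ m)).FG := by
  obtain ⟨φ, hφ, -⟩ := hEMB m j hj
  rw [← hφ, MonoidHom.range_eq_map]
  exact G8_map _ hGE7.1 _

/-- The groups of the intervals are finitely generated. -/
theorem G8 (hG5 : G5_stmt) (hEMB : EMB_stmt) (hGE7 : GE7_stmt) : G8_stmt := by
  rintro a b ⟨ha, hb, ha0, hab, hb1⟩
  have out0 : ∀ g : F, g.1 0 = 0 := fun g => F.out g.2 (by simp)
  have out1 : ∀ g : F, g.1 1 = 1 := fun g => F.out g.2 (by simp)
  have dyhalf : IsDyadic (1 / 2 : ℝ) := by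
    obtain ⟨k, m, h⟩ := (⟨1, 1, by norm_num⟩ : ∃ (k : ℤ) (m : ℕ), (1 / 2 : ℝ) = k / 2 ^ m)
    exact ⟨k, m, h⟩
  have dyq : IsDyadic (1 / 4 : ℝ) := by
    obtain ⟨k, m, h⟩ := (⟨1, 2, by norm_num⟩ : ∃ (k : ℤ) (m : ℕ), (1 / 4 : ℝ) = k / 2 ^ m)
    exact ⟨k, m, h⟩
  rcases ha0.eq_or_lt with h0 | h0
  · rcases hb1.eq_or_lt with h1 | h1
    · rw [← h0, h1, FI_top]
      exact hGE7.1
    · obtain ⟨g, hg⟩ := hG5 1 (fun _ => 1 / 2) (fun _ => b)
        (fun _ => ⟨dyhalf, by norm_num, by norm_num⟩)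
        (fun _ => ⟨hb, by linarith, h1⟩) (Subsingleton.strictMono _) (Subsingleton.strictMono _)
      have h2 := G8_std hEMB hGE7 1 0 (by norm_num)
      have h3 : (((0 : ℕ) : ℝ) / 2 ^ 1) = 0 := by norm_num
      have h4 : ((((0 : ℕ) : ℝ) + 1) / 2 ^ 1) = 1 / 2 := by norm_num
      rw [h3, h4] at h2
      have h5 := G8_conj h2 g
      rw [out0 g, hg 0] at h5
      rw [← h0]
      exact h5
  · rcases hb1.eq_or_lt with h1 | h1
    · obtain ⟨g, hg⟩ := hG5 1 (fun _ => 1 / 2) (fun _ => a)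
        (fun _ => ⟨dyhalf, by norm_num, by norm_num⟩)
        (fun _ => ⟨ha, h0, by linarith⟩) (Subsingleton.strictMono _) (Subsingleton.strictMono _)
      have h2 := G8_std hEMB hGE7 1 1 (by norm_num)
      have h3 : (((1 : ℕ) : ℝ) / 2 ^ 1) = 1 / 2 := by norm_num
      have h4 : ((((1 : ℕ) : ℝ) + 1) / 2 ^ 1) = 1 := by norm_num
      rw [h3, h4] at h2
      have h5 := G8_conj h2 g
      rw [out1 g, hg 0] at h5
      rw [h1]
      exact h5
    · obtain ⟨g, hg⟩ := hG5 2 ![1 / 4, 1 / 2] ![a, b]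
        (by
          intro i
          fin_cases i
          · exact ⟨dyq, by norm_num, by norm_num⟩
          · exact ⟨dyhalf, by norm_num, by norm_num⟩)
        (by
          intro i
          fin_cases i
          · exact ⟨ha, h0, by simp; linarith⟩
          · exact ⟨hb, by simp; linarith, h1⟩)
        (by
          intro i j hij
          fin_cases i <;> fin_cases j <;> simp at hij ⊢
          norm_num)
        (by
          intro i j hij
          fin_cases i <;> fin_cases j <;> simp at hij ⊢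
          exact hab)
      have h2 := G8_std hEMB hGE7 2 1 (by norm_num)
      have h3 : (((1 : ℕ) : ℝ) / 2 ^ 2) = 1 / 4 := by norm_num
      have h4 : ((((1 : ℕ) : ℝ) + 1) / 2 ^ 2) = 1 / 2 := by norm_num
      rw [h3, h4] at h2
      have h5 := G8_conj h2 g
      have e0 : g.1 (1 / 4) = a := hg 0
      have e1 : g.1 (1 / 2) = b := hg 1
      rw [e0, e1] at h5
      exact h5

end Pool.Agent.IRO
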